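import Mathlib
import Pool.Agent.helper391_MD.Main

set_option autoImplicit false

/-!
# Record gaps around integers all of whose multiples have the same sum of digits

Let `s(m)` be the sum of the digits of `m` in base `b` and `f(x) = log x (log₂ x)² log₄ x / (log₃ x)²` (iterated
natural logarithms), the order of the largest gaps between consecutive primes known from the starting files
(`MP_3bc45c_nt.RecordGaps`). For every prime `k` (large in terms of `b` and `δ`) every interval of length
`b^((1 + δ) k)` below `b^(2k) - b^k` contains an integer `n` such that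

* ALL the multiples `m ≤ b^(2k) - b^k` of `n` have the same sum of digits `(b - 1) k`, and
* no prime is within `κ f(b^(2k))` of `n`.

With the interval `(0, b^((1 + δ) k)]` one gets integers `n` with `s(n) = s(2n) = s(3n) = … = s(C n)` for a
`C ≥ n^(1 - 2δ)` in the middle of gaps between primes of record size.

Proof. All the multiples `j (b^k - 1)`, `1 ≤ j ≤ b^k`, have the sum of digits `(b - 1) k`, and all the multiples of a
multiple of `b^k - 1` are among them. If `k` is prime, then the primes dividing `b^k - 1` divide `b - 1` or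
exceed `k`, so that the record sieve of the starting files in progressions with large differences
(`MP_3bc45c_nt.RecordGapsAtPrescribedPlaces`) applies to the multiples of `b^k - 1`.
-/

namespace Pool.Agent.Results.MP_7ba156_nt.MultiplesOfOneDigitSum

/-- The record scale `f(x) = log x (log₂ x)² log₄ x / (log₃ x)²` (iterated natural logarithms). -/
noncomputable def f (x : ℝ) : ℝ :=
  Real.log x * (Real.log (Real.log x)) ^ 2 * Real.log (Real.log (Real.log (Real.log x))) /
    (Real.log (Real.log (Real.log x))) ^ 2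

/-- The sum of the digits of `n` in base `b`. -/
def digitSum (b n : ℕ) : ℕ := (Nat.digits b n).sum

/-- For `b ≥ 2` and `0 < δ ≤ 1` there are `κ > 0` and `k₀` such that for all primes `k ≥ k₀` and all `z` with
`z + b^((1 + δ) k) ≤ b^(2k) - b^k` there is an integer `n` with `z < n ≤ z + b^((1 + δ) k)`, such that every multiple `m`
of `n` with `0 < m ≤ b^(2k) - b^k` has the sum of digits `(b - 1) k`, and such that `|p - n| > κ f(b^(2k))` for every
prime `p`. -/
theorem result (b : ℕ) (hb : 2 ≤ b) (δ : ℝ) (hδ : 0 < δ) (hδ1 : δ ≤ 1) :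
    ∃ κ : ℝ, 0 < κ ∧ ∃ k₀ : ℕ, ∀ k : ℕ, k₀ ≤ k → k.Prime → ∀ z : ℕ,
      (z : ℝ) + (b : ℝ) ^ ((1 + δ) * k) ≤ (b : ℝ) ^ (2 * k) - (b : ℝ) ^ k →
      ∃ n : ℕ, z < n ∧ (n : ℝ) ≤ z + (b : ℝ) ^ ((1 + δ) * k) ∧
        (∀ m : ℕ, n ∣ m → 0 < m → m ≤ b ^ (2 * k) - b ^ k → digitSum b m = (b - 1) * k) ∧
        ∀ p : ℕ, p.Prime → κ * f ((b : ℝ) ^ (2 * k)) < |(p : ℝ) - n| :=
  Pool.Agent.helper391_MD.main b hb δ hδ hδ1

end Pool.Agent.Results.MP_7ba156_nt.MultiplesOfOneDigitSum
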